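import Pool.Agent.W912.SE.Defs
import Pool.Agent.H622R2.Exp.P1

/-!
Project SE (helper912), part BLOCK: planting in a block defeats shallow decision trees.
-/

set_option autoImplicit false

namespace Pool.Agent.W357.SE

open Finset Pool.Agent.W912.SE Pool.Agent.H620R2.Gauge H568R2 Pool.Agent.H676
open Pool.Agent.H622R2.Exp (ones1)

open Classical in
lemma meet_card {I J : Type} [Fintype J] [DecidableEq I] (W : J → Finset I) (A : Finset I)
    (hd : ∀ j j', j ≠ j' → Disjoint (W j) (W j')) :
    ((univ : Finset J).filter (fun j => ¬ Disjoint (W j) A)).card ≤ A.card := by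
  set S := (univ : Finset J).filter (fun j => ¬ Disjoint (W j) A) with hS
  have h1 : (S.biUnion (fun j => W j ∩ A)).card = ∑ j ∈ S, (W j ∩ A).card := by
    refine Finset.card_biUnion ?_
    intro j _ j' _ hne
    exact (hd j j' hne).mono Finset.inter_subset_left Finset.inter_subset_left
  have h2 : S.biUnion (fun j => W j ∩ A) ⊆ A := by
    intro i hi
    obtain ⟨j, -, h⟩ := Finset.mem_biUnion.1 hi
    exact (Finset.mem_inter.1 h).2
  calc S.card = ∑ j ∈ S, 1 := by simp
    _ ≤ ∑ j ∈ S, (W j ∩ A).card := by
        refine Finset.sum_le_sum fun j hj => ?_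
        rw [Nat.one_le_iff_ne_zero, Finset.card_ne_zero, ← Finset.not_disjoint_iff_nonempty_inter]
        exact (Finset.mem_filter.1 hj).2
    _ = _ := h1.symm
    _ ≤ A.card := Finset.card_le_card h2

open Classical in
theorem block : S_BLOCK := by
  intro I J _ _ _ m T t W g hm hd hJ hT hFar hg
  set bad : (I → Bool) → ℝ := fun a => if Ok W t a (g a) then 0 else 1 with hbad
  have hb0 : ∀ a, 0 ≤ bad a := fun a => by simp only [hbad]; split_ifs <;> norm_num
  set e : ℝ := Ex unif bad with he
  have hok : Ex unif (fun a : I → Bool => if Ok W t a (g a) then (1 : ℝ) else 0) + e = 1 := by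
    rw [he, ← Ex_add]
    have : (fun a : I → Bool => (if Ok W t a (g a) then (1 : ℝ) else 0) + bad a) =
        fun _ => (1 : ℝ) := by
      funext a
      simp only [hbad]
      split_ifs <;> norm_num
    rw [this]
    exact Ex_const unif_sum 1
  -- planting
  have hpl : ∀ j, Ex unif (fun a => bad (Pool.Agent.H622R2.Exp.pl (W j) a)) ≤ 2 ^ m * e := by
    intro j
    have h1 := Pool.Agent.H622R2.Exp.P1.Ex_ones1 (W j) bad
    rw [hm j] at h1
    have h2 : Ex unif (fun a => bad a * ones1 (W j) a) ≤ e := by
      refine Ex_mono unif_nonneg fun a => ?_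
      have : ones1 (W j) a ≤ 1 := by unfold ones1; split_ifs <;> norm_num
      exact mul_le_of_le_one_right (hb0 a) this
    rw [h1] at h2
    have h3 : (2 : ℝ) ^ m * ((1 / 2) ^ m * Ex unif (fun a => bad (Pool.Agent.H622R2.Exp.pl (W j) a))) =
        Ex unif (fun a => bad (Pool.Agent.H622R2.Exp.pl (W j) a)) := by
      rw [← mul_assoc, ← mul_pow]
      norm_num
    rw [← h3]
    exact mul_le_mul_of_nonneg_left h2 (by positivity)
  -- pointwise inequality
  have hTJ : (T : ℝ) * 4 ≤ Fintype.card J := by
    have : T * 4 ≤ Fintype.card J := by omega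
    exact_mod_cast this
  have hJT : (0 : ℝ) ≤ (Fintype.card J : ℝ) - T := by
    have : (0 : ℝ) ≤ T := Nat.cast_nonneg _
    linarith
  have hpt : ∀ a : I → Bool, ((Fintype.card J : ℝ) - T) *
      ((if FarF W t a then (1 : ℝ) else 0) - bad a) ≤ ∑ j : J, bad (Pool.Agent.H622R2.Exp.pl (W j) a) := by
    intro a
    have hs0 : 0 ≤ ∑ j : J, bad (Pool.Agent.H622R2.Exp.pl (W j) a) := Finset.sum_nonneg fun j _ => hb0 _
    by_cases hF : FarF W t a
    swap
    · rw [if_neg hF]
      have := mul_nonneg hJT (hb0 a)
      linarith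
    by_cases hO : Ok W t a (g a)
    swap
    · have : bad a = 1 := by simp only [hbad]; rw [if_neg hO]
      rw [if_pos hF, this, sub_self, mul_zero]
      exact hs0
    have hba : bad a = 0 := by simp only [hbad]; rw [if_pos hO]
    have hga : g a = false := hO.2 hF
    obtain ⟨A, hA, hy⟩ := hg.cert false a hga
    rw [if_pos hF, hba, sub_zero, mul_one]
    have h1 : ∀ j, Disjoint (W j) A → bad (Pool.Agent.H622R2.Exp.pl (W j) a) = 1 := by
      intro j hj
      have h2 : g (Pool.Agent.H622R2.Exp.pl (W j) a) = false := by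
        refine hy _ fun i hi => ?_
        unfold Pool.Agent.H622R2.Exp.pl
        rw [if_neg (fun h => Finset.disjoint_left.1 hj h hi)]
      have h3 : HitF W (Pool.Agent.H622R2.Exp.pl (W j) a) := ⟨j, fun i hi => by unfold Pool.Agent.H622R2.Exp.pl; rw [if_pos hi]⟩
      simp only [hbad]
      rw [if_neg]
      intro h4
      have := h4.1 h3
      rw [h2] at this
      exact Bool.false_ne_true this
    have h5 : ((univ : Finset J).filter (fun j => Disjoint (W j) A)).card +
        ((univ : Finset J).filter (fun j => ¬ Disjoint (W j) A)).card = Fintype.card J := by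
      rw [Finset.card_filter_add_card_filter_not]
      rfl
    have h6 := meet_card W A hd
    have h7 : (Fintype.card J : ℝ) - T ≤
        ((univ : Finset J).filter (fun j => Disjoint (W j) A)).card := by
      have : Fintype.card J ≤ ((univ : Finset J).filter (fun j => Disjoint (W j) A)).card + T := by
        omega
      have h8 : (Fintype.card J : ℝ) ≤
          ((univ : Finset J).filter (fun j => Disjoint (W j) A)).card + T := by exact_mod_cast this
      linarith
    refine h7.trans ?_
    calc (((univ : Finset J).filter (fun j => Disjoint (W j) A)).card : ℝ)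
        = ∑ j ∈ (univ : Finset J).filter (fun j => Disjoint (W j) A), (1 : ℝ) := by simp
      _ = ∑ j ∈ (univ : Finset J).filter (fun j => Disjoint (W j) A), bad (Pool.Agent.H622R2.Exp.pl (W j) a) :=
          Finset.sum_congr rfl fun j hj => (h1 j (Finset.mem_filter.1 hj).2).symm
      _ ≤ ∑ j : J, bad (Pool.Agent.H622R2.Exp.pl (W j) a) :=
          Finset.sum_le_sum_of_subset_of_nonneg (Finset.filter_subset _ _) fun j _ _ => hb0 _
  have hmain : ((Fintype.card J : ℝ) - T) * (3 / 4 - e) ≤ Fintype.card J * (2 ^ m * e) := by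
    have h1 := Ex_mono unif_nonneg hpt
    rw [Ex_smul, Ex_sum] at h1
    have h2 : Ex unif (fun a : I → Bool => (if FarF W t a then (1 : ℝ) else 0) - bad a) =
        Ex unif (fun a : I → Bool => if FarF W t a then (1 : ℝ) else 0) - e := by
      have h3 := Ex_add unif
        (fun a : I → Bool => (if FarF W t a then (1 : ℝ) else 0) - bad a) bad
      simp only [sub_add_cancel] at h3
      rw [h3]
      ring
    rw [h2] at h1
    have h4 : ∑ j : J, Ex unif (fun a => bad (Pool.Agent.H622R2.Exp.pl (W j) a)) ≤ Fintype.card J * (2 ^ m * e) := by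
      calc ∑ j : J, Ex unif (fun a => bad (Pool.Agent.H622R2.Exp.pl (W j) a)) ≤ ∑ _j : J, (2 : ℝ) ^ m * e :=
            Finset.sum_le_sum fun j _ => hpl j
        _ = _ := by rw [Finset.sum_const, nsmul_eq_mul]; rfl
    refine le_trans (mul_le_mul_of_nonneg_left ?_ hJT) (h1.trans h4)
    linarith
  -- conclusion
  have hgoal : (1 / 2 : ℝ) ^ (m + 2) ≤ e := by
    by_contra hlt
    push Not at hlt
    have hJ' : (0 : ℝ) < Fintype.card J := by exact_mod_cast hJ
    have hM : (1 : ℝ) ≤ 2 ^ m := one_le_pow₀ (by norm_num)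
    have hq : (2 : ℝ) ^ m * (1 / 2) ^ (m + 2) = 1 / 4 := by
      rw [pow_add, ← mul_assoc, ← mul_pow]
      norm_num
    have h1 : (2 : ℝ) ^ m * e < 1 / 4 := by
      rw [← hq]
      exact mul_lt_mul_of_pos_left hlt (by positivity)
    have he0 : 0 ≤ e := Ex_nonneg unif_nonneg hb0
    have h2 : e < 1 / 4 := by nlinarith
    have h3 : (Fintype.card J : ℝ) * (3 / 4) ≤ (Fintype.card J : ℝ) - T := by linarith
    have h4 : (Fintype.card J : ℝ) * (3 / 4) * (3 / 4 - e) ≤ Fintype.card J * (2 ^ m * e) :=
      (mul_le_mul_of_nonneg_right h3 (by linarith)).trans hmain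
    nlinarith
  linarith

end Pool.Agent.W357.SE
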